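import Mathlib

set_option autoImplicit false

namespace Pool.Agent.Results.MP_6800d9_co.MoserCover

open Finset

/-- A closed box with prescribed lower left corner. -/
private def box (x y w h : ℝ) : Set (ℝ × ℝ) := Set.Icc x (x + w) ×ˢ Set.Icc y (y + h)

private lemma row_cover {ι : Type*} (a b : ι → ℝ) (y c : ℝ) (s : Finset ι)
    (hs : s.Nonempty) (ha : ∀ i ∈ s, 0 < a i) (hb : ∀ i ∈ s, c ≤ b i) :
    ∀ x : ℝ, ∃ v : ι → ℝ × ℝ,
      Set.Icc x (x + ∑ i ∈ s, a i) ×ˢ Set.Icc y (y + c) ⊆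
        ⋃ i ∈ s, box (v i).1 (v i).2 (a i) (b i) := by
  classical
  induction hs using Finset.Nonempty.cons_induction with
  | singleton i =>
    intro x
    refine ⟨fun _ => (x, y), ?_⟩
    rintro ⟨p, q⟩ ⟨hp, hq⟩
    simp only [Finset.sum_singleton] at hp
    simp only [Finset.mem_singleton, Set.iUnion_iUnion_eq_left, box, Set.mem_prod]
    refine ⟨hp, hq.1, hq.2.trans ?_⟩
    have := hb i (by simp)
    linarith
  | cons i s hi hs ih =>
    intro x
    obtain ⟨v, hv⟩ := ih (fun j hj => ha j (by simp [hj])) (fun j hj => hb j (by simp [hj])) (x + a i)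
    refine ⟨fun j => if j = i then (x, y) else v j, ?_⟩
    rintro ⟨p, q⟩ ⟨hp, hq⟩
    rw [Finset.sum_cons] at hp
    by_cases hpa : p ≤ x + a i
    · refine Set.mem_iUnion₂.2 ⟨i, by simp, ?_⟩
      simp only [if_true, box, Set.mem_prod]
      refine ⟨⟨hp.1, hpa⟩, hq.1, hq.2.trans ?_⟩
      have := hb i (by simp)
      linarith
    · have hmem : ((p, q) : ℝ × ℝ) ∈
          Set.Icc (x + a i) (x + a i + ∑ i ∈ s, a i) ×ˢ Set.Icc y (y + c) := by
        refine ⟨⟨(not_le.1 hpa).le, ?_⟩, hq⟩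
        have := hp.2
        simp only at this ⊢
        linarith
      obtain ⟨j, hj, hjm⟩ := Set.mem_iUnion₂.1 (hv hmem)
      refine Set.mem_iUnion₂.2 ⟨j, by simp [hj], ?_⟩
      have hji : j ≠ i := fun h => hi (h ▸ hj)
      simpa [hji] using hjm

/-- The greedy shelf argument: rectangles with widths at most `1`, heights at most `M` and total
area at least `M + 2 H` cover the strip `[0,1] × [y, y + H]`. -/
private lemma shelf {ι : Type*} (a b : ι → ℝ) :
    ∀ (n : ℕ) (s : Finset ι), s.card = n →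
      (∀ i ∈ s, 0 < a i ∧ a i ≤ 1) → (∀ i ∈ s, 0 < b i) →
      ∀ (M H y : ℝ), 0 < M → 0 ≤ H → (∀ i ∈ s, b i ≤ M) →
      M + 2 * H ≤ ∑ i ∈ s, a i * b i →
      ∃ v : ι → ℝ × ℝ, Set.Icc (0:ℝ) 1 ×ˢ Set.Icc y (y + H) ⊆
        ⋃ i ∈ s, box (v i).1 (v i).2 (a i) (b i) := by
  classical
  intro n
  induction n using Nat.strong_induction_on with
  | _ n ih =>
  intro s hcard ha hb M H y hM hH hbM harea
  -- total width at least one
  have hw : 1 ≤ ∑ i ∈ s, a i := by
    have h1 : ∑ i ∈ s, a i * b i ≤ ∑ i ∈ s, a i * M :=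
      Finset.sum_le_sum fun i hi => mul_le_mul_of_nonneg_left (hbM i hi) (ha i hi).1.le
    rw [← Finset.sum_mul] at h1
    have h2 : M ≤ (∑ i ∈ s, a i) * M := by linarith
    by_contra hlt
    rw [not_le] at hlt
    nlinarith
  -- maximal upper set with total width less than one
  let P : Finset (Finset ι) := s.powerset.filter fun t =>
    (∀ i ∈ t, ∀ j ∈ s, j ∉ t → b j ≤ b i) ∧ ∑ i ∈ t, a i < 1
  have hPne : P.Nonempty := ⟨∅, by simp [P]⟩
  obtain ⟨t, htP, htmax⟩ := P.exists_max_image (fun t => t.card) hPne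
  simp only [P, Finset.mem_filter, Finset.mem_powerset] at htP
  obtain ⟨hts, htup, htw⟩ := htP
  have hne : (s \ t).Nonempty := by
    rw [Finset.sdiff_nonempty]
    intro hst
    have : s = t := Finset.Subset.antisymm hst hts
    rw [this] at hw
    linarith
  obtain ⟨q, hq, hqmax⟩ := (s \ t).exists_max_image b hne
  obtain ⟨hqs, hqt⟩ := Finset.mem_sdiff.1 hq
  have hins_sub : insert q t ⊆ s := Finset.insert_subset hqs hts
  have hrow_w : 1 ≤ ∑ i ∈ insert q t, a i := by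
    by_contra hlt
    rw [not_le] at hlt
    have hmem : insert q t ∈ P := by
      simp only [P, Finset.mem_filter, Finset.mem_powerset]
      refine ⟨hins_sub, ?_, hlt⟩
      intro i hi j hj hjn
      have hjt : j ∉ t := fun h => hjn (Finset.mem_insert_of_mem h)
      rcases Finset.mem_insert.1 hi with rfl | hi
      · exact hqmax j (Finset.mem_sdiff.2 ⟨hj, hjt⟩)
      · exact htup i hi j hj hjt
    have := htmax _ hmem
    rw [Finset.card_insert_of_notMem hqt] at this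
    omega
  have hrow_h : ∀ i ∈ insert q t, b q ≤ b i := by
    intro i hi
    rcases Finset.mem_insert.1 hi with rfl | hi
    · exact le_rfl
    · exact htup i hi q hqs hqt
  obtain ⟨v1, hv1⟩ := row_cover a b y (b q) (insert q t) ⟨q, by simp⟩
    (fun i hi => (ha i (hins_sub hi)).1) hrow_h 0
  have hv1' : Set.Icc (0:ℝ) 1 ×ˢ Set.Icc y (y + b q) ⊆
      ⋃ i ∈ insert q t, box (v1 i).1 (v1 i).2 (a i) (b i) := by
    refine subset_trans ?_ hv1
    exact Set.prod_mono (Set.Icc_subset_Icc le_rfl (by linarith)) le_rfl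
  by_cases hqH : H ≤ b q
  · refine ⟨v1, ?_⟩
    refine subset_trans ?_ (hv1'.trans ?_)
    · exact Set.prod_mono le_rfl (Set.Icc_subset_Icc le_rfl (by linarith))
    · exact Set.biUnion_subset_biUnion_left (fun i hi => hins_sub hi)
  · rw [not_le] at hqH
    set s' := s \ insert q t with hs'
    have hcard' : s'.card < n := by
      rw [← hcard]
      apply Finset.card_lt_card
      refine ⟨Finset.sdiff_subset, fun hsub => ?_⟩
      have := hsub hqs
      simp [hs'] at this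
    have hbq : 0 < b q := hb q hqs
    have harea' : b q + 2 * (H - b q) ≤ ∑ i ∈ s', a i * b i := by
      have hsum : ∑ i ∈ s', a i * b i + ∑ i ∈ insert q t, a i * b i = ∑ i ∈ s, a i * b i :=
        Finset.sum_sdiff hins_sub
      rw [Finset.sum_insert hqt] at hsum
      have h1 : ∑ i ∈ t, a i * b i ≤ (∑ i ∈ t, a i) * M := by
        rw [Finset.sum_mul]
        exact Finset.sum_le_sum fun i hi =>
          mul_le_mul_of_nonneg_left (hbM i (hts hi)) (ha i (hts hi)).1.le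
      have h2 : (∑ i ∈ t, a i) * M ≤ M := by nlinarith
      have h3 : a q * b q ≤ b q := by
        have := (ha q hqs).2
        nlinarith
      linarith
    obtain ⟨v2, hv2⟩ := ih s'.card hcard' s' rfl (fun i hi => ha i (Finset.sdiff_subset hi))
      (fun i hi => hb i (Finset.sdiff_subset hi)) (b q) (H - b q) (y + b q) hbq (by linarith)
      (fun i hi => hqmax i (by
        rw [hs', Finset.mem_sdiff] at hi
        exact Finset.mem_sdiff.2 ⟨hi.1, fun h => hi.2 (Finset.mem_insert_of_mem h)⟩)) harea'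
    refine ⟨fun i => if i ∈ insert q t then v1 i else v2 i, ?_⟩
    rintro ⟨p, r⟩ ⟨hp, hr⟩
    by_cases hrq : r ≤ y + b q
    · obtain ⟨i, hi, him⟩ := Set.mem_iUnion₂.1 (hv1' (a := (p, r)) ⟨hp, hr.1, hrq⟩)
      refine Set.mem_iUnion₂.2 ⟨i, hins_sub hi, ?_⟩
      simpa only [if_pos hi] using him
    · have hr2 : r ≤ y + b q + (H - b q) := by
        have := hr.2
        simp only at this
        linarith
      obtain ⟨i, hi, him⟩ := Set.mem_iUnion₂.1
        (hv2 (a := (p, r)) ⟨hp, (not_le.1 hrq).le, hr2⟩)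
      refine Set.mem_iUnion₂.2 ⟨i, Finset.sdiff_subset hi, ?_⟩
      have hni : i ∉ insert q t := (Finset.mem_sdiff.1 hi).2
      simpa only [if_neg hni] using him

private lemma box_eq (v : ℝ × ℝ) (w h : ℝ) :
    box v.1 v.2 w h ⊆ (fun p : ℝ × ℝ => p + v) '' (Set.Icc 0 w ×ˢ Set.Icc 0 h) := by
  rintro ⟨p, q⟩ ⟨hp, hq⟩
  refine ⟨(p - v.1, q - v.2), ⟨⟨?_, ?_⟩, ?_, ?_⟩, by ext <;> simp⟩
  · have := hp.1; simp only at this ⊢; linarith
  · have := hp.2; simp only at this ⊢; linarith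
  · have := hq.1; simp only at this ⊢; linarith
  · have := hq.2; simp only at this ⊢; linarith

private lemma main_aux {ι : Type*} (a b : ι → ℝ)
    (ha : ∀ i, 0 < a i ∧ a i ≤ 1) (hb : ∀ i, 0 < b i ∧ b i ≤ 1)
    (i₀ : ι) (hi₀ : a i₀ = 1) (harea : HasSum (fun i => a i * b i) 3) :
    ∃ v : ι → ℝ × ℝ, Set.Icc (0:ℝ) 1 ×ˢ Set.Icc (0:ℝ) 1 ⊆
      ⋃ i, box (v i).1 (v i).2 (a i) (b i) := by
  classical
  have hev := (harea.eventually (lt_mem_nhds (show 3 - b i₀ < 3 by linarith [(hb i₀).1])))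
  obtain ⟨s0, hs0⟩ := Filter.eventually_atTop.1 hev
  have h1 : 3 - b i₀ < ∑ i ∈ insert i₀ s0, a i * b i :=
    hs0 (insert i₀ s0) (Finset.subset_insert _ _)
  have h2 : ∑ i ∈ (insert i₀ s0).erase i₀, a i * b i + a i₀ * b i₀
      = ∑ i ∈ insert i₀ s0, a i * b i := Finset.sum_erase_add _ _ (by simp)
  rw [hi₀, one_mul] at h2
  obtain ⟨v, hv⟩ := shelf a b _ ((insert i₀ s0).erase i₀) rfl (fun i _ => ha i)
    (fun i _ => (hb i).1) 1 (1 - b i₀) (b i₀) one_pos (by linarith [(hb i₀).2])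
    (fun i _ => (hb i).2) (by linarith)
  refine ⟨fun i => if i = i₀ then (0, 0) else v i, ?_⟩
  rintro ⟨p, q⟩ ⟨hp, hq⟩
  by_cases hqb : q ≤ b i₀
  · refine Set.mem_iUnion.2 ⟨i₀, ?_⟩
    simp only [if_true, box, hi₀, zero_add]
    exact ⟨hp, hq.1, hqb⟩
  · have hq2 : q ≤ b i₀ + (1 - b i₀) := by
      have := hq.2
      simp only at this
      linarith
    obtain ⟨i, hi, him⟩ := Set.mem_iUnion₂.1 (hv (a := (p, q)) ⟨hp, (not_le.1 hqb).le, hq2⟩)
    refine Set.mem_iUnion.2 ⟨i, ?_⟩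
    have hne : i ≠ i₀ := (Finset.mem_erase.1 hi).1
    simpa only [if_neg hne] using him

/-- **Moser's covering question for rectangles (1966).** Every (finite or infinite) family of
axis-parallel rectangles `[0, a i] × [0, b i]` whose sides are at most `1`, one of whose sides is
exactly `1`, and whose total area is `3`, covers the unit square using translations only. -/
theorem result {ι : Type*} (a b : ι → ℝ)
    (ha : ∀ i, 0 < a i ∧ a i ≤ 1) (hb : ∀ i, 0 < b i ∧ b i ≤ 1)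
    (hmax : ∃ i, a i = 1 ∨ b i = 1)
    (harea : HasSum (fun i => a i * b i) 3) :
    ∃ v : ι → ℝ × ℝ, Set.Icc (0 : ℝ) 1 ×ˢ Set.Icc (0 : ℝ) 1 ⊆
      ⋃ i, (fun p : ℝ × ℝ => p + v i) '' (Set.Icc 0 (a i) ×ˢ Set.Icc 0 (b i)) := by
  obtain ⟨i₀, h | h⟩ := hmax
  · obtain ⟨v, hv⟩ := main_aux a b ha hb i₀ h harea
    exact ⟨v, hv.trans (Set.iUnion_mono fun i => box_eq _ _ _)⟩
  · obtain ⟨v, hv⟩ := main_aux b a hb ha i₀ h (by simpa only [mul_comm] using harea)
    refine ⟨fun i => (v i).swap, ?_⟩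
    refine subset_trans ?_ (Set.iUnion_mono fun i => box_eq _ _ _)
    rintro ⟨p, q⟩ ⟨hp, hq⟩
    obtain ⟨i, hi⟩ := Set.mem_iUnion.1 (hv (a := (q, p)) ⟨hq, hp⟩)
    exact Set.mem_iUnion.2 ⟨i, hi.2, hi.1⟩

end Pool.Agent.Results.MP_6800d9_co.MoserCover
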